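import Pool.Agent.Helper85.CR.Final

/-!
# 5-critical graphs of minimum degree five with two or more crossings

For every `k ≥ 2` there are infinitely many 5-critical graphs with crossing number exactly `k` all
of whose vertices have degree at least five.
-/

set_option autoImplicit false

namespace Pool.Agent.Results.MP_bdaf95_co.TwoCrossings

/-! ## Definitions -/

/-- The reversal of the darts (oriented edges) of `H`. -/
def rev {V : Type} (H : SimpleGraph V) : Equiv.Perm H.Dart :=
  Function.Involutive.toPerm SimpleGraph.Dart.symm SimpleGraph.Dart.symm_involutive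

/-- `σ` is a rotation system of `H`: a permutation of the darts of `H` that permutes, for each
vertex `v`, the darts with initial vertex `v` in a single cycle. -/
def IsRotation {V : Type} (H : SimpleGraph V) (σ : Equiv.Perm H.Dart) : Prop :=
  ∀ d e : H.Dart, σ.SameCycle d e ↔ d.fst = e.fst

/-- The number of faces of a rotation system: the number of cycles of the face permutation
`σ ∘ rev`. -/
noncomputable def numFaces {V : Type} (H : SimpleGraph V) (σ : Equiv.Perm H.Dart) : ℕ :=
  Nat.card (Quotient (Equiv.Perm.SameCycle.setoid (σ * rev H)))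

/-- A finite graph is planar if it has at most one vertex or if it is a spanning subgraph of a
connected graph `H` with a rotation system of genus `0`, that is `|V| - |E| + |F| = 2`. -/
def Planar {V : Type} (G : SimpleGraph V) : Prop :=
  Nat.card V ≤ 1 ∨ ∃ H : SimpleGraph V, G ≤ H ∧ H.Connected ∧
    ∃ σ : Equiv.Perm H.Dart, IsRotation H σ ∧ Nat.card V + numFaces H σ = Nat.card H.edgeSet + 2

/-- The graph obtained from `G` by turning a crossing of the edges `ac` and `bd` into a vertex:
`none` is a new vertex that subdivides both edges. -/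
def planarize {V : Type} (G : SimpleGraph V) (a b c d : V) : SimpleGraph (Option V) :=
  SimpleGraph.fromRel fun x y => match x, y with
    | some u, some v => G.Adj u v ∧ s(u, v) ≠ s(a, c) ∧ s(u, v) ≠ s(b, d)
    | none, some v => v = a ∨ v = b ∨ v = c ∨ v = d
    | _, none => False

/-- `G` has a drawing with `k` crossings: either `k = 0` and `G` is planar, or turning a crossing of
two disjoint edges `ac`, `bd` of `G` into a vertex gives a graph that has a drawing with `k - 1`
crossings.  (In a drawing with the minimum number of crossings adjacent edges do not cross and two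
edges cross at most once, so the crossings can be turned into vertices one after the other.
Conversely a new vertex of degree four in a drawing can be turned back into a crossing of `ac` and
`bd`, or removed if the two curves only touch there.) -/
def Drawn : ℕ → ∀ V : Type, SimpleGraph V → Prop
  | 0, _, G => Planar G
  | k + 1, V, G => ∃ a b c d : V, a ≠ b ∧ a ≠ d ∧ c ≠ b ∧ c ≠ d ∧ G.Adj a c ∧ G.Adj b d ∧
      Drawn k (Option V) (planarize G a b c d)

/-- The crossing number of `G` is `k`. -/
def CrossingNumber {V : Type} (G : SimpleGraph V) (k : ℕ) : Prop :=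
  Drawn k V G ∧ ∀ j < k, ¬ Drawn j V G

/-- `G` is 5-critical: its chromatic number is 5 and every proper subgraph is 4-colourable. -/
def Critical5 {V : Type} (G : SimpleGraph V) : Prop :=
  G.chromaticNumber = 5 ∧ ∀ H : G.Subgraph, H ≠ ⊤ → H.coe.Colorable 4

/-- The degree of a vertex. -/
noncomputable def deg {V : Type} (G : SimpleGraph V) (v : V) : ℕ := (G.neighborSet v).ncard

/-! ## Comparison with the definitions used in the proof -/

theorem drawn_iff (k : ℕ) : ∀ (V : Type) (G : SimpleGraph V),
    Drawn k V G ↔ Pool.Agent.Helper85.CR.Drawn k V G := by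
  induction k with
  | zero => intro V G; exact Iff.rfl
  | succ k ih =>
    intro V G
    constructor
    · rintro ⟨a, b, c, d, h1, h2, h3, h4, h5, h6, h7⟩
      exact ⟨a, b, c, d, h1, h2, h3, h4, h5, h6, (ih _ _).1 h7⟩
    · rintro ⟨a, b, c, d, h1, h2, h3, h4, h5, h6, h7⟩
      exact ⟨a, b, c, d, h1, h2, h3, h4, h5, h6, (ih _ _).2 h7⟩

theorem crossing_iff {V : Type} (G : SimpleGraph V) (k : ℕ) :
    CrossingNumber G k ↔ Pool.Agent.Helper85.CR.CrossingNumber G k := by
  unfold CrossingNumber Pool.Agent.Helper85.CR.CrossingNumber
  rw [drawn_iff]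
  constructor
  · rintro ⟨h1, h2⟩
    exact ⟨h1, fun j hj h => h2 j hj ((drawn_iff _ _ _).2 h)⟩
  · rintro ⟨h1, h2⟩
    exact ⟨h1, fun j hj h => h2 j hj ((drawn_iff _ _ _).1 h)⟩

/-! ## The theorem -/

/-- **Minimum degree five from two crossings on.** For every `k ≥ 2` and every `N` there is a
5-critical graph with at least `N` vertices, crossing number exactly `k` and minimum degree at
least `5`. -/
theorem result : ∀ k N : ℕ, 2 ≤ k → ∃ (V : Type) (_ : Fintype V) (G : SimpleGraph V),
    N ≤ Fintype.card V ∧ Critical5 G ∧ CrossingNumber G k ∧ ∀ v, 5 ≤ deg G v := by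
  intro k N hk
  obtain ⟨V, i, G, h1, h2, h3, h4⟩ := Pool.Agent.Helper85.CR.finalA k N hk
  exact ⟨V, i, G, h1, h2, (crossing_iff G k).2 h3, h4⟩

end Pool.Agent.Results.MP_bdaf95_co.TwoCrossings
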